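import Pool.Agent.Helper39.Dim.Main

set_option autoImplicit false

namespace Pool.Agent.Results.MP_16b0ee_an.DimensionTheorem

/-- The bound of the strong Marshall conjecture for `a < min ((1 - β) / κ², 1 / ρ²)`, uniformly over
the conformal maps `ψ` of class `Σ` for which the Bloch density `(|z|² - 1) |ψ''/ψ'|` exceeds `ρ` on
the circle of radius `r` only on a set of measure at most `M (r² - 1) ^ (1 - β)`, `1 < r < 2`
(for `κ < 1` one assumes `|log ψ'| ≤ κ log (|z|²/(|z|² - 1))`; no such condition for `κ = 1`). -/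
theorem result (a β κ ρ M : ℝ) (ha0 : 0 < a) (haβ : a * κ ^ 2 < 1 - β)
    (haρ : a * ρ ^ 2 < 1) :
    ∃ C : ℝ, ∀ R : ℝ, 1 < R → ∀ ψ h : ℂ → ℂ,
      DifferentiableOn ℂ ψ {z : ℂ | 1 < ‖z‖} →
      Set.InjOn ψ {z : ℂ | 1 < ‖z‖} →
      (∃ b : ℂ, Filter.Tendsto (fun z => ψ z - z) (Bornology.cobounded ℂ) (nhds b)) →
      DifferentiableOn ℂ h {z : ℂ | 1 < ‖z‖} →
      (∀ z : ℂ, 1 < ‖z‖ → Complex.exp (h z) = deriv ψ z) →
      Filter.Tendsto h (Bornology.cobounded ℂ) (nhds 0) →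
      (κ < 1 → ∀ z : ℂ, 1 < ‖z‖ → ‖h z‖ ≤ κ * Real.log (‖z‖ ^ 2 / (‖z‖ ^ 2 - 1))) →
      (∀ r : ℝ, 1 < r → r < 2 →
        (MeasureTheory.volume {θ : ℝ | θ ∈ Set.Ioc 0 (2 * Real.pi) ∧ ρ < (r ^ 2 - 1) *
          ‖deriv h ((r : ℂ) * Complex.exp ((θ : ℂ) * Complex.I))‖}).toReal ≤
        M * (r ^ 2 - 1) ^ (1 - β)) →
      (1 / (2 * Real.pi)) * ∫ θ in (0:ℝ)..(2 * Real.pi),
        Real.exp (a * ‖h ((R : ℂ) * Complex.exp ((θ : ℂ) * Complex.I))‖ ^ 2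
          / Real.log (R ^ 2 / (R ^ 2 - 1))) ≤ C :=
  Pool.Agent.Helper39.Dim.dimension a β κ ρ M ha0 haβ haρ

end Pool.Agent.Results.MP_16b0ee_an.DimensionTheorem
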